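import Pool.Agent.W25.UN.Stm
import Pool.Agent.H361R2.APsum

/-! Project UN (helper25): logarithmic and linear tents (statement `Tents`). -/

set_option autoImplicit false

namespace Pool.Agent.W776.UNTents

open Finset Pool.Agent.W25.UN

theorem part1 (x0 κ y : ℝ) (hx : 0 < x0) (hκ : 0 < κ) (hy : 0 < y) : tn x0 κ y =
    1 / κ * (max 0 (Real.log (x0 * Real.exp κ / y)) - 2 * max 0 (Real.log (x0 / y)) +
      max 0 (Real.log (x0 * Real.exp (-κ) / y))) := by
  have h1 : Real.log (x0 * Real.exp κ / y) = κ - Real.log (y / x0) := by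
    rw [Real.log_div (by positivity) hy.ne', Real.log_mul hx.ne' (Real.exp_pos _).ne',
      Real.log_exp, Real.log_div hy.ne' hx.ne']
    ring
  have h2 : Real.log (x0 / y) = - Real.log (y / x0) := by
    rw [Real.log_div hx.ne' hy.ne', Real.log_div hy.ne' hx.ne']
    ring
  have h3 : Real.log (x0 * Real.exp (-κ) / y) = -κ - Real.log (y / x0) := by
    rw [Real.log_div (by positivity) hy.ne', Real.log_mul hx.ne' (Real.exp_pos _).ne',
      Real.log_exp, Real.log_div hy.ne' hx.ne']
    ring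
  rw [h1, h2, h3]
  unfold tn
  set u := Real.log (y / x0) with hu
  have h4 : max 0 (1 - |u| / κ) = 1 / κ * max 0 (κ - |u|) := by
    have : 1 - |u| / κ = 1 / κ * (κ - |u|) := by field_simp
    rw [this]
    have h5 := mul_max_of_nonneg (a := 1 / κ) 0 (κ - |u|) (by positivity)
    rw [h5, mul_zero]
  rw [h4]
  congr 1
  rcases le_total 0 u with h | h
  · rw [abs_of_nonneg h, max_eq_left (show -u ≤ 0 by linarith),
      max_eq_left (show -κ - u ≤ 0 by linarith)]
    ring
  · rw [abs_of_nonpos h, max_eq_right (show 0 ≤ -u by linarith),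
      max_eq_right (show 0 ≤ κ - u by linarith)]
    rcases le_total (-κ) u with h' | h'
    · rw [max_eq_right (show 0 ≤ κ - -u by linarith), max_eq_left (show -κ - u ≤ 0 by linarith)]
      ring
    · rw [max_eq_left (show κ - -u ≤ 0 by linarith), max_eq_right (show 0 ≤ -κ - u by linarith)]
      ring

theorem part2 (x0 κ y : ℝ) (hx : 0 < x0) (hκ : 0 < κ) (hκ1 : κ ≤ 1 / 16) (hy : 0 < y) :
    |tn x0 κ y - lt x0 (κ * x0) y| ≤ 3 * κ * tn x0 (4 * κ) y := by
  have hlt : lt x0 (κ * x0) y = max 0 (1 - |y / x0 - 1| / κ) := by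
    unfold lt
    congr 2
    have : y / x0 - 1 = (y - x0) / x0 := by field_simp
    rw [this, abs_div, abs_of_pos hx]
    field_simp
  rw [hlt]
  have he : y / x0 = Real.exp (Real.log (y / x0)) := (Real.exp_log (by positivity)).symm
  unfold tn
  set u := Real.log (y / x0) with hu
  rw [he]
  have hR0 : 0 ≤ 3 * κ * max 0 (1 - |u| / (4 * κ)) := by positivity
  rcases le_or_gt (6 / 5 * κ) |u| with h | h
  · have e1 : max 0 (1 - |u| / κ) = 0 := by
      apply max_eq_left
      have : 1 ≤ |u| / κ := by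
        rw [le_div_iff₀ hκ]; linarith
      linarith
    have e2 : max 0 (1 - |Real.exp u - 1| / κ) = 0 := by
      apply max_eq_left
      have : 1 ≤ |Real.exp u - 1| / κ := by
        rw [le_div_iff₀ hκ, one_mul]
        rcases le_total 0 u with h0 | h0
        · rw [abs_of_nonneg h0] at h
          have := Real.add_one_le_exp u
          have h7 := le_abs_self (Real.exp u - 1)
          linarith
        · rw [abs_of_nonpos h0] at h
          have h6 : Real.exp u ≤ 1 / (1 + 6 / 5 * κ) := by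
            have h8 : Real.exp u ≤ Real.exp (-(6 / 5 * κ)) := Real.exp_le_exp.mpr (by linarith)
            have h9 := Real.add_one_le_exp (6 / 5 * κ)
            rw [Real.exp_neg] at h8
            refine h8.trans ?_
            rw [inv_eq_one_div]
            apply one_div_le_one_div_of_le (by positivity)
            linarith
          have h7 := neg_abs_le (Real.exp u - 1)
          have h10 : κ ≤ 1 - 1 / (1 + 6 / 5 * κ) := by
            have : 1 - 1 / (1 + 6 / 5 * κ) = 6 / 5 * κ / (1 + 6 / 5 * κ) := by field_simp; ring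
            rw [this, le_div_iff₀ (by positivity)]
            nlinarith
          linarith
      linarith
    rw [e1, e2, sub_zero, abs_zero]
    exact hR0
  · have h1 : |Real.exp u - 1 - u| ≤ u ^ 2 := Real.abs_exp_sub_one_sub_id_le (by linarith)
    have h2 : |max 0 (1 - |u| / κ) - max 0 (1 - |Real.exp u - 1| / κ)| ≤
        |(1 - |u| / κ) - (1 - |Real.exp u - 1| / κ)| := by
      have := abs_max_sub_max_le_abs (1 - |u| / κ) (1 - |Real.exp u - 1| / κ) 0
      rw [max_comm 0, max_comm 0]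
      exact this
    have h3 : |(1 - |u| / κ) - (1 - |Real.exp u - 1| / κ)| ≤ u ^ 2 / κ := by
      have : (1 - |u| / κ) - (1 - |Real.exp u - 1| / κ) = (|Real.exp u - 1| - |u|) / κ := by ring
      rw [this, abs_div, abs_of_pos hκ]
      apply div_le_div_of_nonneg_right _ hκ.le
      exact (abs_abs_sub_abs_le _ _).trans h1
    have h4 : u ^ 2 / κ ≤ 36 / 25 * κ := by
      rw [div_le_iff₀ hκ, ← sq_abs]
      have := abs_nonneg u
      nlinarith
    have h5 : 7 / 10 ≤ max 0 (1 - |u| / (4 * κ)) := by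
      apply le_max_of_le_right
      have : |u| / (4 * κ) ≤ 3 / 10 := by
        rw [div_le_iff₀ (by positivity)]
        linarith
      linarith
    have h6 : 36 / 25 * κ ≤ 3 * κ * max 0 (1 - |u| / (4 * κ)) := by
      nlinarith
    linarith

theorem part3 (x0 κ : ℝ) (hx : 0 < x0) (hκ : 0 < κ) (hκ1 : κ ≤ 1) :
    κ * x0 ≤ ts x0 κ ∧ ts x0 κ ≤ κ * x0 * (1 + κ ^ 2) := by
  have hc : Real.exp κ - 2 + Real.exp (-κ) = 2 * Real.cosh κ - 2 := by
    rw [Real.cosh_eq]; ring
  have h1 : 1 + κ ^ 2 / 2 ≤ Real.cosh κ := by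
    have h5 : κ / 2 ≤ Real.sinh (κ / 2) := Real.self_le_sinh_iff.mpr (by linarith)
    have h6 : Real.cosh κ = 1 + 2 * Real.sinh (κ / 2) ^ 2 := by
      have h7 := Real.cosh_two_mul (κ / 2)
      rw [show 2 * (κ / 2) = κ by ring] at h7
      have h8 := Real.cosh_sq (κ / 2)
      linarith
    rw [h6]
    nlinarith
  have h2 : Real.cosh κ ≤ 1 + κ ^ 2 / 2 + (κ ^ 2 / 2) ^ 2 := by
    refine (Real.cosh_le_exp_half_sq κ).trans ?_
    have h3 : |κ ^ 2 / 2| ≤ 1 := by
      rw [abs_of_nonneg (by positivity)]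
      nlinarith
    have := (abs_le.mp (Real.abs_exp_sub_one_sub_id_le h3)).2
    linarith
  unfold ts
  rw [hc]
  have hd : 0 < x0 / κ := by positivity
  have e1 : κ * x0 = x0 / κ * κ ^ 2 := by field_simp
  constructor
  · rw [e1]
    apply mul_le_mul_of_nonneg_left _ hd.le
    linarith
  · rw [e1, mul_assoc]
    apply mul_le_mul_of_nonneg_left _ hd.le
    nlinarith [pow_pos hκ 4]

theorem sum_max {x : ℝ} (hx : 1 ≤ x) {X : ℕ} (hX : x ≤ X) (m r : ℕ) (hm : 1 ≤ m) :
    |∑ n ∈ (Icc 1 X).filter (fun n => n ≡ r [MOD m]), max 0 (Real.log (x / n)) - x / m| ≤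
      Real.log x + 1 := by
  have h := Pool.Agent.H361R2.ap_sum hx hm r
  have e : ∑ n ∈ (Icc 1 X).filter (fun n => n ≡ r [MOD m]), max 0 (Real.log (x / n)) =
      ∑ n ∈ (Icc 1 ⌊x⌋₊).filter (fun n => n ≡ r [MOD m]), Real.log (x / n) := by
    symm
    have hsub : (Icc 1 ⌊x⌋₊).filter (fun n => n ≡ r [MOD m]) ⊆
        (Icc 1 X).filter (fun n => n ≡ r [MOD m]) := by
      apply filter_subset_filter
      apply Icc_subset_Icc_right
      exact Nat.floor_le_of_le hX
    rw [← sum_subset hsub]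
    · apply sum_congr rfl
      intro n hn
      rw [mem_filter, mem_Icc] at hn
      symm
      apply max_eq_right
      apply Real.log_nonneg
      have h1 : (1 : ℝ) ≤ n := by exact_mod_cast hn.1.1
      rw [le_div_iff₀ (by linarith), one_mul]
      exact (Nat.le_floor_iff (by linarith)).mp hn.1.2
    · intro n hn hn'
      rw [mem_filter, mem_Icc] at hn
      have h1 : (1 : ℝ) ≤ n := by exact_mod_cast hn.1.1
      have h2 : ⌊x⌋₊ < n := by
        by_contra hc
        apply hn'
        rw [mem_filter, mem_Icc]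
        exact ⟨⟨hn.1.1, not_lt.mp hc⟩, hn.2⟩
      have h3 : x < n := (Nat.floor_lt (by linarith)).mp h2
      apply max_eq_left
      apply Real.log_nonpos (by positivity)
      rw [div_le_iff₀ (by linarith), one_mul]
      exact h3.le
  rw [e]
  exact h

theorem part4 (x0 κ : ℝ) (X : ℕ) (hκ : 0 < κ) (h1 : 1 ≤ x0 * Real.exp (-κ))
    (hX : x0 * Real.exp κ ≤ X) (m r : ℕ) (hm : 1 ≤ m) :
      |∑ n ∈ (Icc 1 X).filter (fun n => n ≡ r [MOD m]), tn x0 κ n - ts x0 κ / m| ≤
        4 / κ * (Real.log (x0 * Real.exp κ) + 1) := by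
  have hx : 0 < x0 := by
    by_contra hc
    rw [not_lt] at hc
    have := mul_nonpos_of_nonpos_of_nonneg hc (Real.exp_pos (-κ)).le
    linarith
  have e1 : Real.exp (-κ) ≤ 1 := Real.exp_le_one_iff.mpr (by linarith)
  have e2 : 1 ≤ Real.exp κ := Real.one_le_exp hκ.le
  have l1 : x0 * Real.exp (-κ) ≤ x0 := by nlinarith
  have l2 : x0 ≤ x0 * Real.exp κ := by nlinarith
  have sA := sum_max (show 1 ≤ x0 * Real.exp κ by linarith) hX m r hm
  have sB := sum_max (show 1 ≤ x0 by linarith) (show x0 ≤ X by linarith) m r hm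
  have sC := sum_max h1 (show x0 * Real.exp (-κ) ≤ X by linarith) m r hm
  have hsum : ∑ n ∈ (Icc 1 X).filter (fun n => n ≡ r [MOD m]), tn x0 κ n =
      1 / κ * (∑ n ∈ (Icc 1 X).filter (fun n => n ≡ r [MOD m]),
          max 0 (Real.log (x0 * Real.exp κ / n)) -
        2 * ∑ n ∈ (Icc 1 X).filter (fun n => n ≡ r [MOD m]), max 0 (Real.log (x0 / n)) +
        ∑ n ∈ (Icc 1 X).filter (fun n => n ≡ r [MOD m]),
          max 0 (Real.log (x0 * Real.exp (-κ) / n))) := by
    rw [mul_sum, ← sum_sub_distrib, ← sum_add_distrib, mul_sum]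
    apply sum_congr rfl
    intro n hn
    rw [mem_filter, mem_Icc] at hn
    apply part1 x0 κ n hx hκ
    exact_mod_cast hn.1.1
  have hL1 : Real.log x0 ≤ Real.log (x0 * Real.exp κ) := Real.log_le_log hx l2
  have hL2 : Real.log (x0 * Real.exp (-κ)) ≤ Real.log (x0 * Real.exp κ) :=
    Real.log_le_log (by linarith) (by linarith)
  rw [hsum]
  generalize (∑ n ∈ (Icc 1 X).filter (fun n => n ≡ r [MOD m]),
          max 0 (Real.log (x0 * Real.exp κ / n))) = A at *
  generalize (∑ n ∈ (Icc 1 X).filter (fun n => n ≡ r [MOD m]),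
          max 0 (Real.log (x0 / n))) = B at *
  generalize (∑ n ∈ (Icc 1 X).filter (fun n => n ≡ r [MOD m]),
          max 0 (Real.log (x0 * Real.exp (-κ) / n))) = C at *
  have e : 1 / κ * (A - 2 * B + C) - ts x0 κ / m =
      1 / κ * ((A - x0 * Real.exp κ / m) - 2 * (B - x0 / m) + (C - x0 * Real.exp (-κ) / m)) := by
    unfold ts
    ring
  rw [e, abs_mul, abs_of_pos (show 0 < 1 / κ by positivity)]
  have e3 : 4 / κ * (Real.log (x0 * Real.exp κ) + 1) =
      1 / κ * (4 * (Real.log (x0 * Real.exp κ) + 1)) := by ring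
  rw [e3]
  apply mul_le_mul_of_nonneg_left _ (by positivity)
  rw [abs_le] at sA sB sC ⊢
  constructor <;> linarith [sA.1, sA.2, sB.1, sB.2, sC.1, sC.2]

theorem main : Tents :=
  ⟨part1, part2, part3, fun x0 κ X hκ h1 hX m r hm => part4 x0 κ X hκ h1 hX m r hm⟩

end Pool.Agent.W776.UNTents
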