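import Pool.Agent.W518.PR.Stm

set_option autoImplicit false

open Pool.Agent.H907R3 Pool.Agent.W518.PR KaehlerDifferential

namespace Pool.Agent.W776.PRDB

section Abstract

variable (M : Finset NN → Type) [∀ α, AddCommGroup (M α)]
  (φ : ∀ {α β : Finset NN}, α ⊆ β → M α →+ M β)
  {F : Type} [AddCommGroup F] (J : ∀ α, M α →+ F)

/-- `c` is the extension by zero of the cochain `w` -/
def IsT {n : ℕ} (w : (Fin n → Fin 6) → F) (c : ∀ k : Fin n → NN, M (img k)) : Prop :=
  (∀ k, none ∈ img k → c k = 0) ∧ ∀ k, none ∉ img k → J _ (c k) = w (fun a => (k a).getD 0)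

variable {M J}

lemma T_unique (hinj : ∀ α, none ∉ α → α.Nonempty → Function.Injective (J α)) {n : ℕ}
    {w : (Fin (n + 1) → Fin 6) → F} {c c' : ∀ k : Fin (n + 1) → NN, M (img k)}
    (h : IsT M J w c) (h' : IsT M J w c') : c = c' := by
  funext k
  by_cases hk : none ∈ img k
  · rw [h.1 k hk, h'.1 k hk]
  · apply hinj _ hk (img_nonempty k)
    rw [h.2 k hk, h'.2 k hk]

lemma T_exists (W : Finset (Fin 6) → AddSubgroup F)
    (h2 : ∀ α, none ∉ α → α.Nonempty → ∀ w ∈ W (er α), ∃ m, J α m = w ∧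
      ∀ (β : Finset NN) (h : α ⊆ β), none ∈ β → φ h m = 0) {n : ℕ}
    (w : (Fin (n + 1) → Fin 6) → F) (hw : ∀ k, w k ∈ W (img k)) :
    ∃ c : ∀ k : Fin (n + 1) → NN, M (img k), IsT M J w c := by
  have hex : ∀ k : Fin (n + 1) → NN, ∃ m : M (img k),
      (none ∉ img k → J _ m = w (fun a => (k a).getD 0)) ∧ (none ∈ img k → m = 0) := by
    intro k
    by_cases hk : none ∈ img k
    · exact ⟨0, fun h => absurd hk h, fun _ => rfl⟩
    · obtain ⟨m, hm1, _⟩ := h2 (img k) hk (img_nonempty k) (w (fun a => (k a).getD 0)) (by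
        have h3 := hw (fun a => (k a).getD 0)
        rw [← er_img, exists_some k hk] at h3
        exact h3)
      exact ⟨m, fun _ => hm1, fun h => absurd h hk⟩
  choose c hc1 hc2 using hex
  exact ⟨c, hc2, hc1⟩

lemma T_kr (hinj : ∀ α, none ∉ α → α.Nonempty → Function.Injective (J α))
    (W : Finset (Fin 6) → AddSubgroup F)
    (h2 : ∀ α, none ∉ α → α.Nonempty → ∀ w ∈ W (er α), ∃ m, J α m = w ∧
      ∀ (β : Finset NN) (h : α ⊆ β), none ∈ β → φ h m = 0) {n : ℕ}
    {w : (Fin (n + 1) → Fin 6) → F} (hw : ∀ k, w k ∈ W (img k))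
    {c : ∀ k : Fin (n + 1) → NN, M (img k)} (h : IsT M J w c) (k : Fin (n + 1) → NN)
    (β : Finset NN) (hβ : img k ⊆ β) (hn : none ∈ β) : φ hβ (c k) = 0 := by
  by_cases hk : none ∈ img k
  · rw [h.1 k hk, map_zero]
  · obtain ⟨m, hm1, hm2⟩ := h2 (img k) hk (img_nonempty k) (w (fun a => (k a).getD 0)) (by
        have h3 := hw (fun a => (k a).getD 0)
        rw [← er_img, exists_some k hk] at h3
        exact h3)
    have e : c k = m := by
      apply hinj _ hk (img_nonempty k)
      rw [h.2 k hk, hm1]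
    rw [e]
    exact hm2 β hβ hn

lemma T_d (hJ : ∀ {α β : Finset NN} (h : α ⊆ β), none ∉ β → ∀ m, J β (φ h m) = J α m)
    (hinj : ∀ α, none ∉ α → α.Nonempty → Function.Injective (J α))
    (W : Finset (Fin 6) → AddSubgroup F)
    (h2 : ∀ α, none ∉ α → α.Nonempty → ∀ w ∈ W (er α), ∃ m, J α m = w ∧
      ∀ (β : Finset NN) (h : α ⊆ β), none ∈ β → φ h m = 0) {n : ℕ}
    {w : (Fin (n + 1) → Fin 6) → F} (hw : ∀ k, w k ∈ W (img k))
    {c : ∀ k : Fin (n + 1) → NN, M (img k)} (h : IsT M J w c) :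
    IsT M J (dd w) (coboundary M φ c) := by
  constructor
  · intro k hk
    simp only [coboundary]
    apply Finset.sum_eq_zero
    intro a _
    rw [T_kr φ hinj W h2 hw h _ _ _ hk, smul_zero]
  · intro k hk
    simp only [coboundary, dd, map_sum, map_zsmul]
    refine Finset.sum_congr rfl fun a _ => ?_
    rw [hJ _ hk, h.2 _ (fun h => hk (img_face k a h))]
    rfl

lemma congr_c {n : ℕ} (c : ∀ k : Fin n → NN, M (img k)) (k k' : Fin n → NN) (β : Finset NN)
    (e : k = k') (h : img k ⊆ β) (h' : img k' ⊆ β) : φ h (c k) = φ h' (c k') := by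
  subst e
  rfl

lemma congr_J {n : ℕ} (c : ∀ k : Fin n → NN, M (img k)) (k k' : Fin n → NN)
    (e : k = k') : J _ (c k) = J _ (c k') := by
  subst e
  rfl

/-- degree zero -/
theorem T_zero
    (W : Finset (Fin 6) → AddSubgroup F)
    (h1 : ∀ {α β : Finset NN} (h : α ⊆ β), none ∉ α → none ∈ β → er β = er α →
      ∀ m, φ h m = 0 → J α m ∈ W (er α))
    (hpt : ∀ α, none ∈ α → er α = ∅ → ∀ m : M α, m = 0)
    (b : ∀ k : Fin 1 → NN, M (img k)) (hb : ∀ k, none ∈ img k → coboundary M φ b k = 0) :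
    ∃ w : (Fin 1 → Fin 6) → F, (∀ k, w k ∈ W (img k)) ∧ IsT M J w b := by
  have h5 : ∀ k : Fin 1 → NN, k 0 = none → b k = 0 := by
    intro k hk
    apply hpt
    · rw [← hk]
      exact mem_img k 0
    · ext j
      simp only [mem_er, img, Finset.mem_image, Finset.mem_univ, true_and]
      constructor
      · rintro ⟨a, ha⟩
        rw [Subsingleton.elim a 0, hk] at ha
        exact absurd ha (by simp)
      · simp
  refine ⟨fun k => J _ (b (fun a => some (k a))), ?_, ?_, ?_⟩
  · intro k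
    let q : Fin 2 → NN := Fin.cons none (fun a => some (k a))
    have hqi : img q = insert none (img (fun a : Fin 1 => (some (k a) : NN))) := img_cons _ _
    have hn : none ∈ img q := by
      rw [hqi]
      exact Finset.mem_insert_self _ _
    have h1' := hb q hn
    have hsub : img (fun a : Fin 1 => (some (k a) : NN)) ⊆ img q := by
      rw [hqi]
      exact Finset.subset_insert _ _
    have hq0 : q ∘ (0 : Fin 2).succAbove = (fun a : Fin 1 => (some (k a) : NN)) :=
      cons_face_zero _ _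
    have h3 : coboundary M φ b q = φ hsub (b (fun a => some (k a))) := by
      simp only [coboundary]
      rw [Fin.sum_univ_two, congr_c φ b _ _ _ hq0 _ hsub, h5 (q ∘ (1 : Fin 2).succAbove) rfl,
        map_zero, smul_zero, add_zero]
      simp
    have h2' : φ hsub (b (fun a => some (k a))) = 0 := by
      rw [← h3, h1']
    have h7 := h1 hsub (none_notMem_img k) hn (by rw [hqi, er_insert]) _ h2'
    rw [er_img k] at h7
    exact h7
  · intro k hk
    apply h5
    simp only [img, Finset.mem_image, Finset.mem_univ, true_and] at hk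
    obtain ⟨a, ha⟩ := hk
    rw [← ha, Subsingleton.elim a 0]
  · intro k hk
    exact congr_J b _ _ (exists_some k hk).symm

/-- positive degrees -/
theorem T_succ
    (φ_comp : ∀ {α β γ : Finset NN} (h₁ : α ⊆ β) (h₂ : β ⊆ γ) (m : M α),
      φ h₂ (φ h₁ m) = φ (h₁.trans h₂) m)
    (φ_id : ∀ {α : Finset NN} (h : α ⊆ α) (m : M α), φ h m = m)
    (ι : ∀ {α β : Finset NN}, er β ⊆ er α → none ∈ β → M β →+ M α)
    (hι : ∀ {α β γ : Finset NN} (h : er β ⊆ er α) (hb : none ∈ β) (h₁ : α ⊆ γ) (h₂ : β ⊆ γ),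
      ∀ m, φ h₁ (ι h hb m) = φ h₂ m)
    (W : Finset (Fin 6) → AddSubgroup F)
    (h1 : ∀ {α β : Finset NN} (h : α ⊆ β), none ∉ α → none ∈ β → er β = er α →
      ∀ m, φ h m = 0 → J α m ∈ W (er α))
    {n : ℕ} (c : ∀ k : Fin (n + 2) → NN, M (img k))
    (hc : ∀ k, none ∈ img k → coboundary M φ c k = 0) :
    ∃ (w : (Fin (n + 2) → Fin 6) → F) (b : ∀ k : Fin (n + 1) → NN, M (img k)),
      (∀ k, w k ∈ W (img k)) ∧ IsT M J w (c - coboundary M φ b) := by
  have hers : ∀ {m : ℕ} (k : Fin m → NN), er (img (Fin.cons none k : Fin (m + 1) → NN)) ⊆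
      er (img k) := by
    intro m k
    rw [img_cons, er_insert]
  have hnone : ∀ {m : ℕ} (k : Fin m → NN), none ∈ img (Fin.cons none k : Fin (m + 1) → NN) := by
    intro m k
    rw [img_cons]
    exact Finset.mem_insert_self _ _
  have hsub : ∀ {m : ℕ} (k : Fin m → NN), img k ⊆ img (Fin.cons none k : Fin (m + 1) → NN) := by
    intro m k
    rw [img_cons]
    exact Finset.subset_insert _ _
  have hface : ∀ {m : ℕ} (k : Fin (m + 1) → NN) (a : Fin (m + 1)),
      img (Fin.cons none (k ∘ a.succAbove) : Fin (m + 1) → NN) ⊆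
        img (Fin.cons none k : Fin (m + 2) → NN) := by
    intro m k a
    rw [img_cons, img_cons]
    exact Finset.insert_subset_insert _ (img_face k a)
  -- the cocycle condition at `cons none k`
  have key : ∀ k : Fin (n + 2) → NN, φ (hsub k) (c k) = ∑ a : Fin (n + 2), (-1 : ℤ) ^ (a : ℕ) •
        φ (hface k a) (c (Fin.cons none (k ∘ a.succAbove))) := by
    intro k
    have h1 := hc (Fin.cons none k) (hnone k)
    simp only [coboundary] at h1
    rw [Fin.sum_univ_succ] at h1
    simp only [Fin.val_zero, pow_zero, one_smul] at h1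
    rw [congr_c φ c _ _ _ (cons_face_zero none k) _ (hsub k)] at h1
    rw [add_eq_zero_iff_eq_neg] at h1
    rw [h1, ← Finset.sum_neg_distrib]
    refine Finset.sum_congr rfl fun a _ => ?_
    rw [Fin.val_succ, pow_succ]
    rw [congr_c φ c _ _ _ (cons_face_succ none k a) _ (hface k a)]
    simp
  let b₁ : ∀ k : Fin (n + 1) → NN, M (img k) := fun k => ι (hers k) (hnone k) (c (Fin.cons none k))
  -- the value of the coboundary of `b₁` after restriction to an index with `none`
  have hb₁ : ∀ (k : Fin (n + 2) → NN) (γ : Finset NN) (h : img k ⊆ γ) (hγ : none ∈ γ),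
      φ h (coboundary M φ b₁ k) = ∑ a : Fin (n + 2), (-1 : ℤ) ^ (a : ℕ) •
        φ (by
          rw [img_cons]
          exact Finset.insert_subset hγ ((img_face k a).trans h))
          (c (Fin.cons none (k ∘ a.succAbove))) := by
    intro k γ h hγ
    simp only [coboundary, map_sum, map_zsmul]
    refine Finset.sum_congr rfl fun a _ => ?_
    congr 1
    rw [φ_comp]
    exact hι _ _ _ _ _
  have hnn : ∀ k : Fin (n + 2) → NN, none ∈ img k → c k = coboundary M φ b₁ k := by
    intro k hk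
    have e1 := hb₁ k (img k) (Finset.Subset.refl _) hk
    rw [φ_id] at e1
    rw [e1]
    have hback : img (Fin.cons none k : Fin (n + 3) → NN) ⊆ img k := by
      rw [img_cons]
      exact Finset.insert_subset hk (Finset.Subset.refl _)
    have e2 := congrArg (φ hback) (key k)
    rw [φ_comp, φ_id, map_sum] at e2
    rw [e2]
    refine Finset.sum_congr rfl fun a _ => ?_
    rw [map_zsmul, φ_comp]
  have hns : ∀ k : Fin (n + 2) → NN, φ (hsub k) (c k - coboundary M φ b₁ k) = 0 := by
    intro k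
    rw [map_sub, key k, hb₁ k _ (hsub k) (hnone k), sub_self]
  refine ⟨fun k => J _ (c (fun a => some (k a)) - coboundary M φ b₁ (fun a => some (k a))), b₁,
    ?_, ?_, ?_⟩
  · intro k
    have h3 := h1 (hsub (fun a => (some (k a) : NN))) (none_notMem_img k) (hnone _)
      (by rw [img_cons, er_insert]) _ (hns _)
    rw [er_img] at h3
    exact h3
  · intro k hk
    rw [Pi.sub_apply, ← hnn k hk, sub_self]
  · intro k hk
    exact congr_J (c - coboundary M φ b₁) _ _ (exists_some k hk).symm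

end Abstract


section Concrete

lemma GGp_eq (p : ℕ) : GGp p = Gm (3 - p) := by
  ext a
  rw [mem_GGp]
  change _ ↔ (3 - (p : ℤ)) ≤ a ∧ (3 : ℤ) ∣ a - (3 - p)
  omega

/-- the forms on the pieces of the diagram -/
abbrev Mf (p : ℕ) (α : Finset NN) : Type := ⋀[AA α]^p Ω[AA α⁄ℂ]

lemma c_inj (p : ℕ) : ∀ α, none ∉ α → α.Nonempty → Function.Injective (JJ p α) :=
  fun _ hα hne => JJ_injective p hα hne

lemma c_h2 (p : ℕ) : ∀ α, none ∉ α → α.Nonempty → ∀ w ∈ W p (er α) (GGp p), ∃ m, JJ p α m = w ∧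
      ∀ (β : Finset NN) (h : α ⊆ β), none ∈ β → fM p (rs h) m = 0 := by
  intro α hα hne w hw
  obtain ⟨m, hm, rfl⟩ := W_le_KI hα hne hw
  exact ⟨m, rfl, hm⟩

lemma c_J (p : ℕ) : ∀ {α β : Finset NN} (h : α ⊆ β), none ∉ β → ∀ m,
    JJ p β (fM p (rs h) m) = JJ p α m := fun h hb m => JJ_rs p h hb m

lemma c_h1 (p : ℕ) : ∀ {α β : Finset NN} (h : α ⊆ β), none ∉ α → none ∈ β → er β = er α →
    ∀ m, fM p (rs h) m = 0 → JJ p α m ∈ W p (er α) (GGp p) :=
  fun h hα hb her _ hm => JJ_mem hα h hb her hm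

lemma c_pt (p : ℕ) (hp : 1 ≤ p) : ∀ α, none ∈ α → er α = ∅ → ∀ m : Mf p α, m = 0 := by
  obtain ⟨q, rfl⟩ : ∃ q, p = q + 1 := ⟨p - 1, by omega⟩
  intro α hn he m
  exact forms_point hn he m

lemma c_comp (p : ℕ) : ∀ {α β γ : Finset NN} (h₁ : α ⊆ β) (h₂ : β ⊆ γ) (m : Mf p α),
    fM p (rs h₂) (fM p (rs h₁) m) = fM p (rs (h₁.trans h₂)) m := by
  intro α β γ h₁ h₂ m
  rw [fM_comp, rs_rs]

lemma c_id (p : ℕ) : ∀ {α : Finset NN} (h : α ⊆ α) (m : Mf p α), fM p (rs h) m = m := by
  intro α h m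
  rw [rs_self, fM_id]

lemma c_inc (p : ℕ) : ∀ {α β γ : Finset NN} (h : er β ⊆ er α) (hb : none ∈ β) (h₁ : α ⊆ γ)
    (h₂ : β ⊆ γ), ∀ m, fM p (rs h₁) (fM p (inc h hb) m) = fM p (rs h₂) m := by
  intro α β γ h hb h₁ h₂ m
  have e : (rs h₁).comp (inc h hb) = rs h₂ := by
    apply AlgHom.ext
    intro f
    apply emb_injective
    rw [AlgHom.comp_apply, emb_rs, emb_inc, emb_rs]
  rw [fM_comp, e]

/-- the complex of forms, in terms of the abstract coboundary -/
lemma d_eq (p n : ℕ) (c : (duBois HH nu p).X n) :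
    (duBois HH nu p).d n c = coboundary (Mf p) (fun h => fM p (rs h)) c := by
  have e : (fun {α β : Finset NN} (h : α ⊆ β) => fM p (rs h)) =
      fun {α β : Finset NN} (h : α ⊆ β) => formMap p (rs h) := by
    funext α β h
    exact (formMap_eq p (rs h)).symm
  rw [e]
  rfl

lemma J_lin' (p : ℕ) (α : Finset NN) (hα : none ∉ α) (m : MP) (ω : Mf p α) :
    JJ p α ((rs (Finset.empty_subset α) (ppi m)) • ω) = cub m • JJ p α ω := by
  have h1 : JJ p α ((rs (Finset.empty_subset α) (ppi m)) • ω) =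
      emb α (rs (Finset.empty_subset α) (ppi m)) • JJ p α ω := J_smul p (emb α) _ _
  have h2 : emb α (rs (Finset.empty_subset α) (ppi m)) = cub m := by
    rw [emb_rs, Tm_neg hα, LinearMap.id_apply, emb_ppi]
    rfl
  rw [h1, h2]

lemma J_lin (p : ℕ) (α : Finset HH.N) (hα : (none : NN) ∉ @id (Finset NN) α) (m : MP)
    (ω : FormsOver HH p nu α) : JJ p α (m • ω) = cub m • JJ p α ω :=
  J_lin' p α hα m ω

/-- being the extension by zero -/
def IsTh (p n : ℕ) (w : (CW p (3 - p)).X n) (c : (duBois HH nu p).X n) : Prop :=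
  IsT (Mf p) (JJ p) (F := LamO) w.1 c

lemma w_mem {p n : ℕ} (w : (CW p (3 - p)).X n) (k : Fin (n + 1) → Fin 6) :
    (w.1 k : LamO) ∈ W p (img k) (GGp p) := by
  rw [GGp_eq]
  exact w.2 k

lemma exists_Th (p n : ℕ) (w : (CW p (3 - p)).X n) : ∃ c, IsTh p n w c :=
  T_exists (M := Mf p) (J := JJ p) (fun h => fM p (rs h)) (fun I => W p I (GGp p)) (c_h2 p)
    (F := LamO) w.1 (w_mem w)

lemma unique_Th {p n : ℕ} {w : (CW p (3 - p)).X n} {c c' : (duBois HH nu p).X n}
    (h : IsTh p n w c) (h' : IsTh p n w c') : c = c' :=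
  T_unique (M := Mf p) (J := JJ p) (F := LamO) (c_inj p) h h'

/-- the extension by zero -/
noncomputable def Th (p n : ℕ) : (CW p (3 - p)).X n →ₗ[MP] (duBois HH nu p).X n where
  toFun w := (exists_Th p n w).choose
  map_add' w w' := by
    refine unique_Th (exists_Th p n (w + w')).choose_spec ⟨?_, ?_⟩
    · intro k hk
      have h1 := (exists_Th p n w).choose_spec.1 k hk
      have h2 := (exists_Th p n w').choose_spec.1 k hk
      change (exists_Th p n w).choose k + (exists_Th p n w').choose k = 0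
      exact (congrArg₂ (· + ·) h1 h2).trans (add_zero _)
    · intro k hk
      have h1 := (exists_Th p n w).choose_spec.2 k hk
      have h2 := (exists_Th p n w').choose_spec.2 k hk
      refine (map_add (JJ p (img k)) _ _).trans ?_
      exact congrArg₂ (· + ·) h1 h2
  map_smul' m w := by
    refine unique_Th (exists_Th p n (m • w)).choose_spec ⟨?_, ?_⟩
    · intro k hk
      have h1 := (exists_Th p n w).choose_spec.1 k hk
      have h3 : ∀ (α : Finset HH.N) (x : FormsOver HH p nu α), x = 0 → m • x = 0 := by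
        intro α x hx
        rw [hx, smul_zero]
      exact h3 _ _ h1
    · intro k hk
      have h1 := (exists_Th p n w).choose_spec.2 k hk
      refine (J_lin p (img k) hk m _).trans ?_
      exact congrArg (fun x : LamO => cub m • x) h1

lemma Th_spec (p n : ℕ) (w : (CW p (3 - p)).X n) : IsTh p n w (Th p n w) :=
  (exists_Th p n w).choose_spec

/-- the extension by zero as a chain map -/
noncomputable def ThHom (p : ℕ) : ModCx.Hom (CW p (3 - p)) (duBois HH nu p) where
  f n := Th p n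
  comm n w := by
    refine unique_Th (Th_spec p (n + 1) _) ?_
    rw [d_eq]
    exact T_d (M := Mf p) (J := JJ p) (F := LamO) (fun h => fM p (rs h)) (c_J p) (c_inj p)
      (fun I => W p I (GGp p)) (c_h2 p) (w_mem w) (Th_spec p n w)

end Concrete

theorem main : S_db := by
  intro p hp
  refine ⟨ThHom p, ?_, ?_, ?_⟩
  · intro n
    rw [injective_iff_map_eq_zero]
    intro w hw
    have h1 := Th_spec p n w
    have hw' : Th p n w = 0 := hw
    rw [hw'] at h1
    apply Subtype.ext
    funext k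
    have h2 := h1.2 (fun a => some (k a)) (none_notMem_img k)
    exact h2.symm.trans (map_zero (JJ p _))
  · rintro b ⟨a, ha⟩
    have hb : ∀ k : Fin 2 → NN, none ∈ img k →
        coboundary (Mf p) (fun h => fM p (rs h)) b k = 0 := by
      rw [← d_eq, ← ha]
      exact (Th_spec p 1 a).1
    obtain ⟨w, hw, h⟩ := T_zero (M := Mf p) (J := JJ p) (F := LamO) (fun h => fM p (rs h))
      (fun I => W p I (GGp p)) (c_h1 p) (c_pt p hp) b hb
    have hw' : ∀ k, (w k : FO) ∈ WP p (3 - p) (img k) := by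
      intro k
      have := hw k
      rw [GGp_eq] at this
      exact this
    exact ⟨⟨w, hw'⟩, unique_Th (Th_spec p 0 ⟨w, hw'⟩) h⟩
  · rintro n b ⟨a, ha⟩
    have hb : ∀ k : Fin (n + 3) → NN, none ∈ img k →
        coboundary (Mf p) (fun h => fM p (rs h)) b k = 0 := by
      rw [← d_eq, ← ha]
      exact (Th_spec p (n + 2) a).1
    obtain ⟨w, b', hw, h⟩ := T_succ (M := Mf p) (J := JJ p) (F := LamO) (fun h => fM p (rs h))
      (c_comp p) (c_id p) (fun h hb => fM p (inc h hb)) (c_inc p)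
      (fun I => W p I (GGp p)) (c_h1 p) b hb
    have hw' : ∀ k, (w k : FO) ∈ WP p (3 - p) (img k) := by
      intro k
      have := hw k
      rw [GGp_eq] at this
      exact this
    refine ⟨⟨w, hw'⟩, b', ?_⟩
    have h5 : Th p (n + 1) ⟨w, hw'⟩ = b - (duBois HH nu p).d n b' := by
      refine unique_Th (Th_spec p (n + 1) ⟨w, hw'⟩) ?_
      exact (congrArg (fun x : (duBois HH nu p).X (n + 1) =>
        IsTh p (n + 1) ⟨w, hw'⟩ (b - x)) (d_eq p n b')).mpr h
    change b = Th p (n + 1) ⟨w, hw'⟩ + (duBois HH nu p).d n b'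
    rw [h5]
    exact (sub_add_cancel b _).symm

end Pool.Agent.W776.PRDB
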